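import Pool.Agent.H20.ER3.Lib

/-!
# MP_816b90_co: Operation C, row D0 (replacement of the new vertex of an odd prism)
-/

set_option autoImplicit false

namespace Pool.Agent.H63.ER3

open Pool.Agent.H48.ER Pool.Agent.H52.ER2 Pool.Agent.H66.ER2 Pool.Agent.H20.ER3

/-- no odd prism, index form -/
theorem nop_pi (hPB : U_PB) {V : Type} {G : SimpleGraph V} (hG : NOP G) {n : Fin 3 → ℕ}
    {g : Fin 3 → ℕ → V} (h : PI G n g) : ¬ ∀ i, Odd (n i) :=
  hG _ _ _ _ (hPB V G n g h)

/-- every vertex of a prism has a neighbour -/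
theorem pi_nb {W : Type} {M : SimpleGraph W} {n : Fin 3 → ℕ} {g : Fin 3 → ℕ → W} (h : PI M n g)
    {i : Fin 3} {k : ℕ} (hk : k ≤ n i) : ∃ l, l ≤ n i ∧ M.Adj (g i k) (g i l) := by
  have hp := h.pos i
  by_cases h0 : k = 0
  · refine ⟨k + 1, by omega, (h.adj i i k (k + 1) hk (by omega)).2 (Or.inl ⟨rfl, Or.inl rfl⟩)⟩
  · refine ⟨k - 1, by omega, (h.adj i i k (k - 1) hk (by omega)).2 (Or.inl ⟨rfl, Or.inr ?_⟩)⟩
    omega

theorem pf_D0 (hPB : U_PB) : U_D0 := by
  intro V G p q n g hG h hodd
  classical
  have hq : ∀ i k, k ≤ n i → g i k ≠ q := by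
    intro i k hk e
    obtain ⟨l, _, ha⟩ := pi_nb h hk
    rw [e] at ha
    exact ctr_not_adj ha
  by_cases hp : ∃ i k, k ≤ n i ∧ g i k = p
  · obtain ⟨i, k, hk, e⟩ := hp
    refine ⟨i, k, hk, e, ?_⟩
    intro z hz
    by_contra hcon
    have hall : ∀ j l, l ≤ n j → (ctr G p q).Adj p (g j l) → G.Adj z (g j l) := by
      intro j l hl ha
      by_contra hn
      exact hcon ⟨j, l, hl, ha, hn⟩
    have hpq : p ≠ q := fun e' => hq i k hk (e.trans e')
    have hne : ∀ j l, l ≤ n j → ¬ (j = i ∧ l = k) → g j l ≠ p := by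
      intro j l hl hjl e'
      exact hjl (h.inj j i l k hl hk (e'.trans e.symm))
    have hnz : ∀ j l, l ≤ n j → ¬ (j = i ∧ l = k) → g j l ≠ z := by
      intro j l hl hjl
      rcases hz with rfl | rfl
      · exact hne j l hl hjl
      · exact hq j l hl
    have hadz : ∀ j l, l ≤ n j → ¬ (j = i ∧ l = k) →
        (G.Adj z (g j l) ↔ (ctr G p q).Adj (g i k) (g j l)) := by
      intro j l hl hjl
      rw [e]
      constructor
      · intro ha
        rw [ctr_adj_left (hne j l hl hjl) (hq j l hl) hpq]
        rcases hz with rfl | rfl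
        · exact Or.inl ha
        · exact Or.inr ha
      · exact hall j l hl
    have hG' : PI G n (fun j l => if j = i ∧ l = k then z else g j l) := by
      refine ⟨h.pos, ?_, ?_⟩
      · intro j j' l l' hl hl' he
        by_cases h1 : j = i ∧ l = k
        · by_cases h2 : j' = i ∧ l' = k
          · exact ⟨h1.1.trans h2.1.symm, h1.2.trans h2.2.symm⟩
          · simp only [if_pos h1, if_neg h2] at he
            exact absurd he.symm (hnz j' l' hl' h2)
        · by_cases h2 : j' = i ∧ l' = k
          · simp only [if_neg h1, if_pos h2] at he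
            exact absurd he (hnz j l hl h1)
          · simp only [if_neg h1, if_neg h2] at he
            exact h.inj j j' l l' hl hl' he
      · intro j j' l l' hl hl'
        rw [← h.adj j j' l l' hl hl']
        by_cases h1 : j = i ∧ l = k
        · by_cases h2 : j' = i ∧ l' = k
          · simp only [if_pos h1, if_pos h2]
            rw [h1.1, h1.2, h2.1, h2.2]
            exact ⟨fun ha => absurd ha (G.loopless.irrefl _),
              fun ha => absurd ha ((ctr G p q).loopless.irrefl _)⟩
          · simp only [if_pos h1, if_neg h2]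
            rw [hadz j' l' hl' h2, h1.1, h1.2]
        · by_cases h2 : j' = i ∧ l' = k
          · simp only [if_neg h1, if_pos h2]
            rw [G.adj_comm, hadz j l hl h1, h2.1, h2.2, (ctr G p q).adj_comm]
          · simp only [if_neg h1, if_neg h2]
            rw [ctr_adj_of_ne (hne j l hl h1) (hq j l hl) (hne j' l' hl' h2) (hq j' l' hl')]
    exact nop_pi hPB hG hG' hodd
  · exfalso
    have hne : ∀ j l, l ≤ n j → g j l ≠ p := fun j l hl e => hp ⟨j, l, hl, e⟩
    have hG' : PI G n g := by
      refine ⟨h.pos, h.inj, ?_⟩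
      intro j j' l l' hl hl'
      rw [← h.adj j j' l l' hl hl',
        ctr_adj_of_ne (hne j l hl) (hq j l hl) (hne j' l' hl') (hq j' l' hl')]
    exact nop_pi hPB hG hG' hodd

end Pool.Agent.H63.ER3
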