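import Pool.Agent.H20.ER3.Lib

/-!
# MP_816b90_co: Operation C, row EA (the pattern of a rung of a minimal prism)
-/

set_option autoImplicit false

namespace Pool.Agent.H63.ER3

open Pool.Agent.H48.ER Pool.Agent.H52.ER2 Pool.Agent.H66.ER2 Pool.Agent.H20.ER3

/-- minimal prisms and permutations of the rungs -/
theorem mr_perm (hPP : U_PP) {V : Type} {H : SimpleGraph V} {R : Set V} {n : Fin 3 → ℕ}
    {g : Fin 3 → ℕ → V ⊕ Set V} (h : MR H R n g) (σ : Fin 3 → Fin 3)
    (hσ : Function.Injective σ) : MR H R (fun i => n (σ i)) (fun i => g (σ i)) := by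
  obtain ⟨h1, h2⟩ := (hPP _ _ n g h.pi).1 σ hσ
  refine ⟨h1, fun i => h.odd (σ i), ?_, ?_⟩
  · rw [h2]
    exact h.sp
  · intro n' g' k1 k2 k3
    rw [h2]
    exact h.mn n' g' k1 k2 k3

/-- a predicate on an interval without gaps -/
theorem no_gap (P : ℕ → Prop) (N : ℕ)
    (h : ∀ k l, k + 2 ≤ l → l ≤ N → ¬ P k → ¬ P l → ¬ ∀ x, k < x → x < l → P x) :
    (∀ x, x ≤ N → P x) ∨ ∃ s t, s ≤ t ∧ t ≤ N ∧ (∀ x, x < s → P x) ∧
      (∀ x, s ≤ x → x ≤ t → ¬ P x) ∧ ∀ x, t < x → x ≤ N → P x := by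
  classical
  by_cases h0 : ∀ x, x ≤ N → P x
  · exact Or.inl h0
  · right
    have hex : ∃ x, ¬ P x ∧ x ≤ N := by
      by_contra hc
      exact h0 fun x hx => by
        by_contra hp
        exact hc ⟨x, hp, hx⟩
    have hs := Nat.find_spec hex
    have hs' : ∀ x, x < Nat.find hex → P x := by
      intro x hx
      by_contra hp
      exact Nat.find_min hex hx ⟨hp, hx.le.trans hs.2⟩
    have ht : ¬ P (Nat.findGreatest (fun x => ¬ P x) N) :=
      Nat.findGreatest_spec (P := fun x => ¬ P x) hs.2 hs.1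
    have htN : Nat.findGreatest (fun x => ¬ P x) N ≤ N := Nat.findGreatest_le N
    have hst : Nat.find hex ≤ Nat.findGreatest (fun x => ¬ P x) N :=
      Nat.le_findGreatest (P := fun x => ¬ P x) hs.2 hs.1
    refine ⟨_, _, hst, htN, hs', ?_, ?_⟩
    · intro x hsx hxt hP
      have hk1 : ¬ P (Nat.findGreatest (fun x => ¬ P x) x) :=
        Nat.findGreatest_spec (P := fun x => ¬ P x) hsx hs.1
      have hk2 : Nat.findGreatest (fun x => ¬ P x) x ≤ x := Nat.findGreatest_le x
      have hk3 : ∀ y, Nat.findGreatest (fun x => ¬ P x) x < y → y ≤ x → P y := by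
        intro y h1 h2
        by_contra hp
        exact Nat.findGreatest_is_greatest (P := fun x => ¬ P x) h1 h2 hp
      have hk4 : Nat.findGreatest (fun x => ¬ P x) x ≠ x := fun e => hk1 (by rw [e]; exact hP)
      have hex2 : ∃ y, ¬ P y ∧ x ≤ y := ⟨_, ht, hxt⟩
      have hl := Nat.find_spec hex2
      have hl2 : Nat.find hex2 ≤ Nat.findGreatest (fun x => ¬ P x) N :=
        Nat.find_min' hex2 ⟨ht, hxt⟩
      have hl3 : ∀ y, x ≤ y → y < Nat.find hex2 → P y := by
        intro y h1 h2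
        by_contra hp
        exact Nat.find_min hex2 h2 ⟨hp, h1⟩
      have hl4 : Nat.find hex2 ≠ x := fun e => hl.1 (by rw [e]; exact hP)
      refine h _ _ ?_ (hl2.trans htN) hk1 hl.1 ?_
      · have := hl.2
        omega
      · intro y h1 h2
        by_cases hyx : y ≤ x
        · exact hk3 y h1 hyx
        · exact hl3 y (by omega) h2
    · intro x h1 h2
      by_contra hp
      exact Nat.findGreatest_is_greatest (P := fun x => ¬ P x) h1 h2 hp

theorem pf_EA (hC1 : U_C1) (hPP : U_PP) : U_EA := by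
  intro V _ H R n g hE hM i
  refine no_gap (fun x => InR R (g i x)) (n i) ?_
  intro k l hkl hl hk hl'
  have hM' := mr_perm hPP hM (Equiv.swap 0 i) (Equiv.injective _)
  have h := hC1 V H R _ _ k l hE hM' hkl
  simp only [Equiv.swap_apply_left] at h
  exact h hl hk hl'

end Pool.Agent.H63.ER3
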